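import Pool.Agent.helper79.MC.H
import Pool.Agent.helper79.MC.Fin

/-!
# Graphs without `K_r` and with `m` edges all of whose cuts have at most `m / 2 + C m ^ (5/7)` edges

The blocks of the construction: `F` is the field with `t ^ 2` elements, `t = 2 ^ l` with `l` odd, `W` is an
additive subgroup of `F` of order `t` containing `1` which is its own orthogonal complement for the form
`τ(x y)`, where `τ : F → 𝔽₂` is additive, non-zero and `τ(x²) = τ(x)`. Vertices are the pairs `(u, b)` of
elements of `F`; `(u, b)` and `(u', b')` are adjacent if `u ≠ u'` and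
`(b + b' + u' (u + u')) / (u + u') ^ 2 ∈ W`. This graph has `m = t ^ 5 (t ^ 2 - 1) / 2` edges and no cut with
more than `m / 2 + t ^ 5 / 4` edges; `W` is chosen such that it has no clique with `r` vertices. The graphs
with any number of edges are disjoint unions of such blocks and of single edges.
-/

set_option autoImplicit false
open Finset

namespace Pool.Agent.Results.MP_ddb86a_co.CliqueFreeCuts

/-- The size of the cut `(S, Sᶜ)` of `G`: the number of edges of `G` with one endpoint in `S` and one
endpoint outside `S`. -/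
noncomputable def cutSize {n : ℕ} (G : SimpleGraph (Fin n)) (S : Set (Fin n)) : ℕ :=
  Set.ncard {e | e ∈ G.edgeSet ∧ ∃ a ∈ S, ∃ b ∉ S, e = s(a, b)}

open Classical in
theorem cutSize_eq {n : ℕ} (G : SimpleGraph (Fin n)) (S : Set (Fin n)) :
    cutSize G S = (univ.filter (fun p : Fin n × Fin n => p.1 ∈ S ∧ p.2 ∉ S ∧ G.Adj p.1 p.2)).card := by
  unfold cutSize
  have himg : {e | e ∈ G.edgeSet ∧ ∃ a ∈ S, ∃ b ∉ S, e = s(a, b)} =
      (((univ.filter (fun p : Fin n × Fin n => p.1 ∈ S ∧ p.2 ∉ S ∧ G.Adj p.1 p.2)).image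
        (fun p => s(p.1, p.2)) : Finset (Sym2 (Fin n))) : Set (Sym2 (Fin n))) := by
    ext e
    simp only [Set.mem_ofPred_eq, Finset.coe_image, Finset.coe_filter, Finset.mem_univ, true_and,
      Set.mem_image, Prod.exists]
    constructor
    · rintro ⟨he, a, ha, b, hb, rfl⟩
      exact ⟨a, b, ⟨ha, hb, he⟩, rfl⟩
    · rintro ⟨a, b, ⟨ha, hb, hab⟩, rfl⟩
      exact ⟨hab, a, ha, b, hb, rfl⟩
  rw [himg, Set.ncard_coe_finset]
  apply Finset.card_image_of_injOn
  rintro ⟨a, b⟩ h1 ⟨c, d⟩ h2 h
  simp only [Finset.coe_filter, Finset.mem_univ, true_and, Set.mem_ofPred_eq] at h1 h2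
  simp only [Sym2.eq_iff] at h
  rcases h with h | h
  · exact Prod.ext h.1 h.2
  · exact absurd h1.1 (h.1 ▸ h2.2.1)

open Classical in
theorem ncard_edgeSet {n : ℕ} (G : SimpleGraph (Fin n)) :
    2 * G.edgeSet.ncard = (univ.filter (fun p : Fin n × Fin n => G.Adj p.1 p.2)).card := by
  rw [← SimpleGraph.coe_edgeFinset, Set.ncard_coe_finset]
  exact MCut.two_mul_edges G

/-- **Theorem.** There are `r` and `C` such that for every `m` there is a graph without `K_r` with exactly
`m` edges all of whose cuts have at most `m / 2 + C m ^ (5/7)` edges. -/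
theorem result : ∃ (r : ℕ) (C : ℝ), ∀ m : ℕ, ∃ (n : ℕ) (G : SimpleGraph (Fin n)),
    G.CliqueFree r ∧ G.edgeSet.ncard = m ∧
      ∀ S : Set (Fin n), (cutSize G S : ℝ) ≤ (m : ℝ) / 2 + C * (m : ℝ) ^ ((5 : ℝ) / 7) := by
  classical
  obtain ⟨r, C, -, h⟩ := MCut.exists_all_m
  refine ⟨r, C, fun m => ?_⟩
  obtain ⟨V, iV, G, hfree, hN, hcut⟩ := h m
  set e : V ≃ Fin (Fintype.card V) := Fintype.equivFin V
  set G' : SimpleGraph (Fin (Fintype.card V)) := G.comap e.symm with hG'
  have hadj : ∀ a b, G'.Adj a b ↔ G.Adj (e.symm a) (e.symm b) := fun a b => Iff.rfl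
  have hpairs : (univ.filter (fun p : Fin (Fintype.card V) × Fin (Fintype.card V) =>
      G'.Adj p.1 p.2)).card = (univ.filter (fun p : V × V => G.Adj p.1 p.2)).card := by
    symm
    apply Finset.card_bij (fun p _ => (e p.1, e p.2))
    · intro p hp
      simp only [Finset.mem_filter, Finset.mem_univ, true_and] at hp ⊢
      rw [hadj]
      simpa using hp
    · intro p _ q _ hpq
      simp only [Prod.mk.injEq, EmbeddingLike.apply_eq_iff_eq] at hpq
      exact Prod.ext hpq.1 hpq.2
    · intro p hp
      simp only [Finset.mem_filter, Finset.mem_univ, true_and] at hp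
      refine ⟨(e.symm p.1, e.symm p.2), ?_, by simp⟩
      simp only [Finset.mem_filter, Finset.mem_univ, true_and]
      exact (hadj _ _).1 hp
  refine ⟨Fintype.card V, G', ?_, ?_, ?_⟩
  · intro s hs
    rw [SimpleGraph.isNClique_iff, SimpleGraph.isClique_iff] at hs
    obtain ⟨hs1, hs2⟩ := hs
    let f : Fin r ≃ s := (Fin.castOrderIso hs2.symm).toEquiv.trans s.equivFin.symm
    refine hfree (fun a => e.symm (f a : Fin (Fintype.card V))) fun a b hab => ?_
    refine (hadj _ _).1 (hs1 (f a).2 (f b).2 ?_)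
    intro hfab
    exact hab (f.injective (Subtype.ext hfab))
  · have h1 := ncard_edgeSet G'
    have h2 := hpairs.trans hN
    have h3 : 2 * G'.edgeSet.ncard = 2 * m := h1.trans (by convert h2)
    omega
  · intro S
    have h1 := hcut (univ.filter (fun v => e v ∈ S))
    have hcc : (univ.filter (fun p : Fin (Fintype.card V) × Fin (Fintype.card V) =>
        p.1 ∈ S ∧ p.2 ∉ S ∧ G'.Adj p.1 p.2)).card = (univ.filter (fun p : V × V =>
        p.1 ∈ univ.filter (fun v => e v ∈ S) ∧ p.2 ∉ univ.filter (fun v => e v ∈ S) ∧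
          G.Adj p.1 p.2)).card := by
      symm
      apply Finset.card_bij (fun p _ => (e p.1, e p.2))
      · intro p hp
        simp only [Finset.mem_filter, Finset.mem_univ, true_and] at hp ⊢
        rw [hadj]
        simpa using hp
      · intro p _ q _ hpq
        simp only [Prod.mk.injEq, EmbeddingLike.apply_eq_iff_eq] at hpq
        exact Prod.ext hpq.1 hpq.2
      · intro p hp
        simp only [Finset.mem_filter, Finset.mem_univ, true_and] at hp
        refine ⟨(e.symm p.1, e.symm p.2), ?_, by simp⟩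
        simp only [Finset.mem_filter, Finset.mem_univ, true_and, Equiv.apply_symm_apply]
        exact ⟨hp.1, hp.2.1, (hadj _ _).1 hp.2.2⟩
    have hk : ∀ (x y z : ℕ) (B : ℝ), x = y → y = z → (z : ℝ) ≤ B → (x : ℝ) ≤ B := by
      intro x y z B hxy hyz hz
      rw [hxy, hyz]
      exact hz
    exact hk _ _ _ _ (cutSize_eq G' S) (by convert hcc) h1

end Pool.Agent.Results.MP_ddb86a_co.CliqueFreeCuts
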